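import Mathlib

section

set_option autoImplicit false

namespace Pool.Agent.Lib.MP_7e9031_nt

/-- The skeleton: multiples of `2^n, 2^n+1, 2^n+2, 2^n+3` at scale `4^n`. -/
def Sk : Set ℕ := {t | ∃ n i, i < 4 ∧ (2 ^ n + i) ∣ t ∧ 4 ^ n ≤ t ∧ t < 64 * 4 ^ n}

lemma mult_card (μ a l : ℕ) (hμ : 0 < μ) (hl : l ≤ 16 * μ) :
    ((Finset.Ico a (a + l)).filter (fun t => μ ∣ t)).card ≤ 17 := by
  have h : ((Finset.Ico a (a + l)).filter (fun t => μ ∣ t)).card ≤
      (Finset.Ico (a / μ) (a / μ + 17)).card := by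
    apply Finset.card_le_card_of_injOn (fun t => t / μ)
    · intro t ht
      simp only [Finset.coe_filter, Finset.mem_Ico, Set.mem_ofPred_eq] at ht
      obtain ⟨⟨h1, h2⟩, s, rfl⟩ := ht
      simp only [Finset.coe_Ico, Set.mem_Ico]
      rw [Nat.mul_div_cancel_left _ hμ]
      constructor
      · rw [Nat.div_le_iff_le_mul_add_pred hμ]; omega
      · have h3 : a < μ * (a / μ + 1) := by
          have := Nat.lt_mul_div_succ a hμ
          simpa using this
        have h4 : μ * s < μ * (a / μ + 17) := by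
          calc μ * s < a + l := h2
            _ < μ * (a / μ + 1) + 16 * μ := by omega
            _ = μ * (a / μ + 17) := by ring
        exact Nat.lt_of_mul_lt_mul_left h4
    · intro t ht t' ht' hh
      simp only [Finset.coe_filter, Finset.mem_Ico, Set.mem_ofPred_eq] at ht ht'
      obtain ⟨-, s, rfl⟩ := ht
      obtain ⟨-, s', rfl⟩ := ht'
      simp only [Nat.mul_div_cancel_left _ hμ] at hh
      rw [hh]
  simpa using h

open Classical in
lemma cell_card (j : ℕ) (hj : 1 ≤ j) :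
    ((Finset.Ico (j ^ 2) ((j + 1) ^ 2)).filter (fun t => t ∈ Sk)).card ≤ 204 := by
  set N := Nat.log 2 j with hN
  have hN1 : 2 ^ N ≤ j := Nat.pow_log_le_self 2 (by omega)
  have hN2 : j < 2 ^ (N + 1) := Nat.lt_pow_succ_log_self (by norm_num) j
  have e1 : (j + 1) ^ 2 = j ^ 2 + (2 * j + 1) := by ring
  have hsub : (Finset.Ico (j ^ 2) ((j + 1) ^ 2)).filter (fun t => t ∈ Sk) ⊆
      (Finset.range 3).biUnion (fun e => (Finset.range 4).biUnion (fun i =>
        (Finset.Ico (j ^ 2) (j ^ 2 + (2 * j + 1))).filter (fun t => (2 ^ (N - e) + i) ∣ t))) := by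
    intro t ht
    rw [Finset.mem_filter] at ht
    obtain ⟨ht1, n, i, hi, hd, h1, h2⟩ := ht
    rw [Finset.mem_Ico] at ht1
    have p4 : ∀ k : ℕ, 4 ^ k = (2 ^ k) ^ 2 := fun k => by
      rw [← pow_mul, mul_comm, pow_mul]; norm_num
    have g1 : n ≤ N := by
      by_contra hc
      have : 4 ^ (N + 1) ≤ 4 ^ n := Nat.pow_le_pow_right (by norm_num) (by omega)
      have h3 : (j + 1) ^ 2 ≤ 4 ^ (N + 1) := by
        rw [p4]; exact Nat.pow_le_pow_left (by omega) 2
      omega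
    have g2 : N ≤ n + 2 := by
      by_contra hc
      have : 4 ^ (n + 3) ≤ 4 ^ N := Nat.pow_le_pow_right (by norm_num) (by omega)
      have h3 : 4 ^ N ≤ j ^ 2 := by
        rw [p4]; exact Nat.pow_le_pow_left hN1 2
      have h4 : 4 ^ (n + 3) = 64 * 4 ^ n := by rw [pow_add]; norm_num; ring
      omega
    simp only [Finset.mem_biUnion, Finset.mem_range, Finset.mem_filter, Finset.mem_Ico]
    refine ⟨N - n, by omega, i, hi, by omega, ?_⟩
    have : N - (N - n) = n := by omega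
    rw [this]; exact hd
  refine (Finset.card_le_card hsub).trans ?_
  refine (Finset.card_biUnion_le).trans ?_
  calc ∑ e ∈ Finset.range 3, ((Finset.range 4).biUnion (fun i =>
        (Finset.Ico (j ^ 2) (j ^ 2 + (2 * j + 1))).filter (fun t => (2 ^ (N - e) + i) ∣ t))).card
      ≤ ∑ e ∈ Finset.range 3, 4 * 17 := by
        apply Finset.sum_le_sum
        intro e he
        refine (Finset.card_biUnion_le).trans ?_
        calc ∑ i ∈ Finset.range 4, ((Finset.Ico (j ^ 2) (j ^ 2 + (2 * j + 1))).filter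
              (fun t => (2 ^ (N - e) + i) ∣ t)).card ≤ ∑ i ∈ Finset.range 4, 17 := by
              apply Finset.sum_le_sum
              intro i hi
              apply mult_card
              · positivity
              · have he' : e < 3 := by simpa using he
                have h3 : 2 ^ (N + 2) ≤ 16 * 2 ^ (N - e) := by
                  have : 16 * 2 ^ (N - e) = 2 ^ (N - e + 4) := by rw [pow_add]; norm_num; ring
                  rw [this]
                  exact Nat.pow_le_pow_right (by norm_num) (by omega)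
                have h4 : 2 ^ (N + 2) = 2 * 2 ^ (N + 1) := by rw [pow_succ]; ring
                have h5 : 16 * 2 ^ (N - e) ≤ 16 * (2 ^ (N - e) + i) := by omega
                omega
          _ = 4 * 17 := by simp
    _ = 204 := by simp

open Classical in
lemma exists_S : ∃ S : ℕ → Finset ℕ, ∀ j, 128 ≤ j →
    (Finset.Ico (j ^ 2) ((j + 1) ^ 2)).filter (fun t => t ∈ Sk) ⊆ S j ∧
    S j ⊆ Finset.Ico (j ^ 2) ((j + 1) ^ 2) ∧ (S j).card = 256 := by
  have : ∀ j : ℕ, ∃ s : Finset ℕ, 128 ≤ j →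
    (Finset.Ico (j ^ 2) ((j + 1) ^ 2)).filter (fun t => t ∈ Sk) ⊆ s ∧
    s ⊆ Finset.Ico (j ^ 2) ((j + 1) ^ 2) ∧ s.card = 256 := by
    intro j
    by_cases hj : 128 ≤ j
    · have h1 := cell_card j (by omega)
      obtain ⟨u, hu1, hu2, hu3⟩ := Finset.exists_subsuperset_card_eq
        (Finset.filter_subset (fun t => t ∈ Sk) (Finset.Ico (j ^ 2) ((j + 1) ^ 2)))
        (h1.trans (by norm_num : 204 ≤ 256)) (by
          rw [Nat.card_Ico]
          have e1 : (j + 1) ^ 2 = j ^ 2 + (2 * j + 1) := by ring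
          omega)
      exact ⟨u, fun _ => ⟨hu1, hu2, hu3⟩⟩
    · exact ⟨∅, fun h => absurd h hj⟩
  choose S hS using this
  exact ⟨S, hS⟩

/-- The chosen cells. -/
noncomputable def SS : ℕ → Finset ℕ := Classical.choose exists_S

open Classical in
lemma SS_spec (j : ℕ) (hj : 128 ≤ j) :
    (Finset.Ico (j ^ 2) ((j + 1) ^ 2)).filter (fun t => t ∈ Sk) ⊆ SS j ∧
    SS j ⊆ Finset.Ico (j ^ 2) ((j + 1) ^ 2) ∧ (SS j).card = 256 :=
  Classical.choose_spec exists_S j hj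

/-- The base set. -/
def Ab : Set ℕ := {t | 128 ≤ Nat.sqrt t ∧ t ∈ SS (Nat.sqrt t)}

lemma Sk_sub (t : ℕ) (ht : 128 ^ 2 ≤ t) (h : t ∈ Sk) : t ∈ Ab := by
  classical
  have h1 : 128 ≤ Nat.sqrt t := by rw [Nat.le_sqrt']; exact ht
  refine ⟨h1, (SS_spec _ h1).1 ?_⟩
  rw [Finset.mem_filter, Finset.mem_Ico]
  exact ⟨⟨Nat.sqrt_le' t, Nat.lt_succ_sqrt' t⟩, h⟩

lemma Ab_cell (j t : ℕ) (hj : 128 ≤ j) (h1 : j ^ 2 ≤ t) (h2 : t < (j + 1) ^ 2) :
    t ∈ Ab ↔ t ∈ SS j := by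
  have : Nat.sqrt t = j := (Nat.eq_sqrt'.mpr ⟨h1, h2⟩).symm
  constructor
  · rintro ⟨-, h⟩; rwa [this] at h
  · intro h; refine ⟨by omega, by rwa [this]⟩

open Classical in
/-- counting function -/
noncomputable def cnt (A : Set ℕ) (x : ℕ) : ℕ := ((Finset.range x).filter (fun t => t ∈ A)).card

lemma cnt_mono (A : Set ℕ) {x y : ℕ} (h : x ≤ y) : cnt A x ≤ cnt A y := by
  classical
  unfold cnt
  apply Finset.card_le_card
  intro t ht
  rw [Finset.mem_filter, Finset.mem_range] at *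
  exact ⟨by omega, ht.2⟩

lemma cnt_Ab_sq (k : ℕ) : cnt Ab ((128 + k) ^ 2) = 256 * k := by
  classical
  induction k with
  | zero =>
    simp only [cnt, add_zero, mul_zero, Finset.card_eq_zero, Finset.filter_eq_empty_iff,
      Finset.mem_range]
    intro t ht h
    have h1 : 128 ≤ Nat.sqrt t := h.1
    rw [Nat.le_sqrt'] at h1
    omega
  | succ k ih =>
    unfold cnt at *
    have h1 : (Finset.range ((128 + (k + 1)) ^ 2)).filter (fun t => t ∈ Ab) =
        (Finset.range ((128 + k) ^ 2)).filter (fun t => t ∈ Ab) ∪ SS (128 + k) := by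
      obtain ⟨s1, s2, s3⟩ := SS_spec (128 + k) (by omega)
      have e1 : 128 + (k + 1) = 128 + k + 1 := by ring
      ext t
      rw [Finset.mem_union, Finset.mem_filter, Finset.mem_filter, Finset.mem_range,
        Finset.mem_range, e1]
      constructor
      · rintro ⟨h2, h3⟩
        by_cases h4 : t < (128 + k) ^ 2
        · exact Or.inl ⟨h4, h3⟩
        · exact Or.inr ((Ab_cell (128 + k) t (by omega) (by omega) h2).mp h3)
      · rintro (⟨h2, h3⟩ | h2)
        · refine ⟨lt_of_lt_of_le h2 (Nat.pow_le_pow_left (by omega) 2), h3⟩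
        · have h3 := s2 h2
          rw [Finset.mem_Ico] at h3
          exact ⟨h3.2, (Ab_cell (128 + k) t (by omega) h3.1 h3.2).mpr h2⟩
    obtain ⟨s1, s2, s3⟩ := SS_spec (128 + k) (by omega)
    rw [h1, Finset.card_union_of_disjoint, ih, s3]
    · ring
    · rw [Finset.disjoint_left]
      intro t ht ht'
      rw [Finset.mem_filter, Finset.mem_range] at ht
      have := s2 ht'
      rw [Finset.mem_Ico] at this
      omega

lemma cnt_Ab_upper (x : ℕ) : cnt Ab x ≤ 256 * (Nat.sqrt x + 1) := by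
  have h1 : x ≤ (128 + (Nat.sqrt x + 1)) ^ 2 := by
    have := Nat.lt_succ_sqrt' x
    have h2 : (Nat.sqrt x).succ ^ 2 ≤ (128 + (Nat.sqrt x + 1)) ^ 2 :=
      Nat.pow_le_pow_left (by omega) 2
    omega
  exact (cnt_mono Ab h1).trans (cnt_Ab_sq _).le

lemma cnt_Ab_lower (x : ℕ) : 256 * (Nat.sqrt x - 128) ≤ cnt Ab x := by
  by_cases h : 128 ≤ Nat.sqrt x
  · have h1 : (128 + (Nat.sqrt x - 128)) ^ 2 ≤ x := by
      have := Nat.sqrt_le' x
      have e : 128 + (Nat.sqrt x - 128) = Nat.sqrt x := by omega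
      rwa [e]
    exact (cnt_Ab_sq _).symm.le.trans (cnt_mono Ab h1)
  · have : Nat.sqrt x - 128 = 0 := by omega
    rw [this]; omega

/-- representations by the skeleton -/
lemma rep_aux (P i m : ℕ) (hP : 4 ≤ P) (hi : i ≤ 2) (hm : 16 * (P * P) ≤ m) :
    ∃ a b, a + b = m ∧ (P + i) ∣ a ∧ (P + i + 1) ∣ b ∧ P * P ≤ a ∧ P * P ≤ b := by
  set d := P + i with hd
  have hd0 : 0 < d := by omega
  set x := d + m % d with hx
  have hx1 : d ≤ x := by omega
  have hx2 : x < 2 * d := by have := Nat.mod_lt m hd0; omega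
  have hb1 : P * P ≤ (d + 1) * x := by nlinarith
  have hb2 : (d + 1) * x ≤ 6 * (P * P) := by nlinarith
  refine ⟨m - (d + 1) * x, (d + 1) * x, by omega, ?_, Dvd.intro _ rfl, by omega, hb1⟩
  have h1 : m = d * (m / d) + m % d := (Nat.div_add_mod m d).symm
  have h2 : m - (d + 1) * x = d * (m / d) - d * (x + 1) := by
    have h3 : (d + 1) * x = d * x + x := by ring
    have h4 : d * (x + 1) = d * x + d := by ring
    rw [h3, h4]
    omega
  rw [h2, ← Nat.mul_sub]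
  exact Dvd.intro _ rfl

lemma Sk_mem (n i t : ℕ) (hi : i < 4) (h1 : (2 ^ n + i) ∣ t) (h2 : 4 ^ n ≤ t)
    (h3 : t < 64 * 4 ^ n) : t ∈ Sk := ⟨n, i, hi, h1, h2, h3⟩

/-- the scale of `m` -/
def sc (m : ℕ) : ℕ := Nat.log 4 (m / 16)

lemma sc_spec (m : ℕ) (hm : 256 ≤ m) : 2 ≤ sc m ∧ 16 * 4 ^ (sc m) ≤ m ∧ m < 64 * 4 ^ (sc m) := by
  have hne : m / 16 ≠ 0 := by omega
  have l1 : 4 ^ (sc m) ≤ m / 16 := Nat.pow_log_le_self 4 hne
  have l2 : m / 16 < 4 ^ (sc m + 1) := Nat.lt_pow_succ_log_self (by norm_num) _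
  refine ⟨?_, by omega, ?_⟩
  · exact Nat.le_log_of_pow_le (by norm_num) (by omega)
  · rw [pow_succ] at l2; omega

lemma exists_reps : ∃ a1 b1 a2 b2 : ℕ → ℕ, ∀ m, 256 ≤ m →
    (a1 m + b1 m = m ∧ (2 ^ (sc m)) ∣ a1 m ∧ (2 ^ (sc m) + 1) ∣ b1 m ∧ 4 ^ (sc m) ≤ a1 m ∧
      4 ^ (sc m) ≤ b1 m) ∧
    (a2 m + b2 m = m ∧ (2 ^ (sc m) + 2) ∣ a2 m ∧ (2 ^ (sc m) + 3) ∣ b2 m ∧ 4 ^ (sc m) ≤ a2 m ∧
      4 ^ (sc m) ≤ b2 m) := by
  have key : ∀ m : ℕ, ∃ a1 b1 a2 b2 : ℕ, 256 ≤ m →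
    (a1 + b1 = m ∧ (2 ^ (sc m)) ∣ a1 ∧ (2 ^ (sc m) + 1) ∣ b1 ∧ 4 ^ (sc m) ≤ a1 ∧
      4 ^ (sc m) ≤ b1) ∧
    (a2 + b2 = m ∧ (2 ^ (sc m) + 2) ∣ a2 ∧ (2 ^ (sc m) + 3) ∣ b2 ∧ 4 ^ (sc m) ≤ a2 ∧
      4 ^ (sc m) ≤ b2) := by
    intro m
    by_cases hm : 256 ≤ m
    · obtain ⟨h1, h2, h3⟩ := sc_spec m hm
      have p4 : 4 ^ (sc m) = 2 ^ (sc m) * 2 ^ (sc m) := by
        rw [← mul_pow]; norm_num
      have hP : 4 ≤ 2 ^ (sc m) := by
        calc 4 = 2 ^ 2 := by norm_num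
          _ ≤ 2 ^ (sc m) := Nat.pow_le_pow_right (by norm_num) h1
      rw [p4] at h2
      obtain ⟨a1, b1, q1, q2, q3, q4, q5⟩ := rep_aux _ 0 m hP (by norm_num) h2
      obtain ⟨a2, b2, r1, r2, r3, r4, r5⟩ := rep_aux _ 2 m hP (by norm_num) h2
      rw [p4]
      exact ⟨a1, b1, a2, b2, fun _ => ⟨⟨q1, q2, q3, q4, q5⟩, ⟨r1, r2, r3, r4, r5⟩⟩⟩
    · exact ⟨0, 0, 0, 0, fun h => absurd h hm⟩
  choose a1 b1 a2 b2 h using key
  exact ⟨a1, b1, a2, b2, h⟩

/-- two numbers congruent modulo two nearly coprime moduli and close to each other agree -/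
lemma close_eq (d d' Q m m' : ℕ) (hdd : d < d') (hd3 : d' ≤ d + 3) (hQ : Q ≤ d * d')
    (h1 : d ∣ m' - m) (h2 : d' ∣ m' - m) (hmm : m ≤ m') (hclose : 3 * (m' - m) < Q) : m = m' := by
  by_contra hne
  have hpos : 0 < m' - m := by omega
  have hl : Nat.lcm d d' ∣ m' - m := Nat.lcm_dvd h1 h2
  have hl2 : Nat.lcm d d' ≤ m' - m := Nat.le_of_dvd hpos hl
  have hg : Nat.gcd d d' ∣ d' - d := Nat.dvd_sub (Nat.gcd_dvd_right d d') (Nat.gcd_dvd_left d d')
  have hg2 : Nat.gcd d d' ≤ d' - d := Nat.le_of_dvd (by omega) hg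
  have hg3 : Nat.gcd d d' * Nat.lcm d d' = d * d' := Nat.gcd_mul_lcm d d'
  have : d * d' ≤ 3 * (m' - m) := by
    rw [← hg3]
    exact Nat.mul_le_mul (by omega) hl2
  omega

lemma dvd_sub_of_common {d a a' x m m' : ℕ} (h1 : m = x + a) (h2 : m' = x + a') (ha : d ∣ a)
    (ha' : d ∣ a') : d ∣ m' - m := by
  have : m' - m = a' - a := by omega
  rw [this]; exact Nat.dvd_sub ha' ha

/-- codes -/
abbrev Cd := ℕ × ℕ × Fin 2 × Fin 2 × Fin 3 × Fin 192

/-- valid code of `m`. -/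
def IsCd (a1 b1 a2 b2 : ℕ → ℕ) (m : ℕ) (c : Cd) : Prop :=
  ((c.2.2.1 = 0 ∧ c.1 = a1 m) ∨ (c.2.2.1 = 1 ∧ c.1 = b1 m)) ∧
  ((c.2.2.2.1 = 0 ∧ c.2.1 = a2 m) ∨ (c.2.2.2.1 = 1 ∧ c.2.1 = b2 m)) ∧
  (c.2.2.2.2.1.val = sc m % 3) ∧ (c.2.2.2.2.2.val = 3 * m / 4 ^ (sc m))

lemma cd_inj (a1 b1 a2 b2 : ℕ → ℕ) (h : ∀ m, 256 ≤ m →
    (a1 m + b1 m = m ∧ (2 ^ (sc m)) ∣ a1 m ∧ (2 ^ (sc m) + 1) ∣ b1 m ∧ 4 ^ (sc m) ≤ a1 m ∧
      4 ^ (sc m) ≤ b1 m) ∧
    (a2 m + b2 m = m ∧ (2 ^ (sc m) + 2) ∣ a2 m ∧ (2 ^ (sc m) + 3) ∣ b2 m ∧ 4 ^ (sc m) ≤ a2 m ∧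
      4 ^ (sc m) ≤ b2 m)) (m m' : ℕ) (hm : 256 ≤ m) (hm' : 256 ≤ m') (c : Cd)
    (hc : IsCd a1 b1 a2 b2 m c) (hc' : IsCd a1 b1 a2 b2 m' c) (hle : m ≤ m') : m = m' := by
  obtain ⟨⟨q1, q2, q3, q4, q5⟩, ⟨r1, r2, r3, r4, r5⟩⟩ := h m hm
  obtain ⟨⟨q1', q2', q3', q4', q5'⟩, ⟨r1', r2', r3', r4', r5'⟩⟩ := h m' hm'
  obtain ⟨s1, s2, s3⟩ := sc_spec m hm
  obtain ⟨s1', s2', s3'⟩ := sc_spec m' hm'
  obtain ⟨c1, c2, c3, c4⟩ := hc
  obtain ⟨c1', c2', c3', c4'⟩ := hc'
  have hsc : sc m = sc m' := by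
    have b1 : 4 ^ (sc m) ≤ c.1 ∧ c.1 < 64 * 4 ^ (sc m) := by
      rcases c1 with ⟨-, c1⟩ | ⟨-, c1⟩ <;> rw [c1] <;> constructor <;> omega
    have b2 : 4 ^ (sc m') ≤ c.1 ∧ c.1 < 64 * 4 ^ (sc m') := by
      rcases c1' with ⟨-, c1'⟩ | ⟨-, c1'⟩ <;> rw [c1'] <;> constructor <;> omega
    by_contra hne
    have e : ∀ n : ℕ, 64 * 4 ^ n = 4 ^ (n + 3) := fun n => by rw [pow_add]; norm_num; ring
    rcases (by omega : sc m + 3 ≤ sc m' ∨ sc m' + 3 ≤ sc m) with hh | hh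
    · have := Nat.pow_le_pow_right (show 0 < 4 by norm_num) hh
      rw [← e] at this; omega
    · have := Nat.pow_le_pow_right (show 0 < 4 by norm_num) hh
      rw [← e] at this; omega
  rw [← hsc] at q2' q3' r2' r3' c4'
  set P := 2 ^ (sc m) with hP
  have p4 : 4 ^ (sc m) = P * P := by rw [hP, ← mul_pow]; norm_num
  -- first modulus
  have hd : ∃ d, (d = P ∨ d = P + 1) ∧ d ∣ m' - m := by
    rcases c1 with ⟨c0, c1⟩ | ⟨c0, c1⟩
    · rcases c1' with ⟨c0', c1'⟩ | ⟨c0', c1'⟩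
      · exact ⟨P + 1, Or.inr rfl, dvd_sub_of_common (x := c.1) (by omega) (by omega) q3 q3'⟩
      · rw [c0] at c0'; exact absurd c0' (by decide)
    · rcases c1' with ⟨c0', c1'⟩ | ⟨c0', c1'⟩
      · rw [c0] at c0'; exact absurd c0' (by decide)
      · exact ⟨P, Or.inl rfl, dvd_sub_of_common (x := c.1) (by omega) (by omega) q2 q2'⟩
  have hd' : ∃ d, (d = P + 2 ∨ d = P + 3) ∧ d ∣ m' - m := by
    rcases c2 with ⟨c0, c1⟩ | ⟨c0, c1⟩
    · rcases c2' with ⟨c0', c1'⟩ | ⟨c0', c1'⟩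
      · exact ⟨P + 3, Or.inr rfl, dvd_sub_of_common (x := c.2.1) (by omega) (by omega) r3 r3'⟩
      · rw [c0] at c0'; exact absurd c0' (by decide)
    · rcases c2' with ⟨c0', c1'⟩ | ⟨c0', c1'⟩
      · rw [c0] at c0'; exact absurd c0' (by decide)
      · exact ⟨P + 2, Or.inl rfl, dvd_sub_of_common (x := c.2.1) (by omega) (by omega) r2 r2'⟩
  obtain ⟨d, hd1, hd2⟩ := hd
  obtain ⟨d', hd1', hd2'⟩ := hd'
  have hQ : 4 ^ (sc m) ≤ d * d' := by
    rw [p4]
    apply Nat.mul_le_mul <;> omega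
  refine close_eq d d' (4 ^ (sc m)) m m' (by omega) (by omega) hQ hd2 hd2' hle ?_
  have hqq : 3 * m / 4 ^ (sc m) = 3 * m' / 4 ^ (sc m) := by omega
  have g1 := Nat.div_add_mod (3 * m) (4 ^ (sc m))
  have g2 := Nat.div_add_mod (3 * m') (4 ^ (sc m))
  have g3 := Nat.mod_lt (3 * m) (show 0 < 4 ^ (sc m) by positivity)
  have g4 := Nat.mod_lt (3 * m') (show 0 < 4 ^ (sc m) by positivity)
  rw [hqq] at g1
  omega

lemma rob (R : Finset ℕ) : ∃ D : Finset ℕ, D.card ≤ 2304 * R.card ^ 2 ∧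
    ∀ m, 2 ^ 20 ≤ m → m ∉ D → ∃ x y, x ∈ Ab ∧ y ∈ Ab ∧ x ∉ R ∧ y ∉ R ∧ x + y = m ∧
      m ≤ 64 * x ∧ m ≤ 64 * y := by
  classical
  obtain ⟨a1, b1, a2, b2, h⟩ := exists_reps
  set DS : Set ℕ := {m | 256 ≤ m ∧ (a1 m ∈ R ∨ b1 m ∈ R) ∧ (a2 m ∈ R ∨ b2 m ∈ R)} with hDS
  have hex : ∀ m : ℕ, ∃ c : Cd, m ∈ DS → IsCd a1 b1 a2 b2 m c ∧ c.1 ∈ R ∧ c.2.1 ∈ R := by
    intro m
    by_cases hm : m ∈ DS
    · obtain ⟨h0, h1, h2⟩ := hm
      obtain ⟨s1, s2, s3⟩ := sc_spec m h0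
      have hq : 3 * m / 4 ^ (sc m) < 192 := by
        rw [Nat.div_lt_iff_lt_mul (by positivity)]; omega
      have hτ : ∃ x : ℕ, ∃ τ : Fin 2, ((τ = 0 ∧ x = a1 m) ∨ (τ = 1 ∧ x = b1 m)) ∧ x ∈ R := by
        rcases h1 with h1 | h1
        · exact ⟨a1 m, 0, Or.inl ⟨rfl, rfl⟩, h1⟩
        · exact ⟨b1 m, 1, Or.inr ⟨rfl, rfl⟩, h1⟩
      have hτ' : ∃ x : ℕ, ∃ τ : Fin 2, ((τ = 0 ∧ x = a2 m) ∨ (τ = 1 ∧ x = b2 m)) ∧ x ∈ R := by
        rcases h2 with h1 | h1
        · exact ⟨a2 m, 0, Or.inl ⟨rfl, rfl⟩, h1⟩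
        · exact ⟨b2 m, 1, Or.inr ⟨rfl, rfl⟩, h1⟩
      obtain ⟨x, τ, hx, hxR⟩ := hτ
      obtain ⟨y, τ', hy, hyR⟩ := hτ'
      exact ⟨(x, y, τ, τ', ⟨sc m % 3, Nat.mod_lt _ (by norm_num)⟩, ⟨3 * m / 4 ^ (sc m), hq⟩),
        fun _ => ⟨⟨hx, hy, rfl, rfl⟩, hxR, hyR⟩⟩
    · exact ⟨(0, 0, 0, 0, 0, 0), fun h => absurd h hm⟩
  choose f hf using hex
  set T : Finset Cd := R ×ˢ (R ×ˢ (Finset.univ : Finset (Fin 2 × Fin 2 × Fin 3 × Fin 192))) with hT
  have hmaps : Set.MapsTo f DS (T : Set Cd) := by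
    intro m hm
    obtain ⟨-, h1, h2⟩ := hf m hm
    rw [hT]
    simp only [Finset.coe_product, Set.mem_prod, Finset.mem_coe, Finset.mem_univ, and_true]
    exact ⟨h1, h2⟩
  have hinj : Set.InjOn f DS := by
    intro m hm m' hm' hff
    have g1 := (hf m hm).1
    have g2 := (hf m' hm').1
    rw [hff] at g1
    rcases le_total m m' with hle | hle
    · exact cd_inj a1 b1 a2 b2 h m m' hm.1 hm'.1 _ g1 g2 hle
    · exact (cd_inj a1 b1 a2 b2 h m' m hm'.1 hm.1 _ g2 g1 hle).symm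
  have hfin : DS.Finite := Set.Finite.of_injOn hmaps hinj T.finite_toSet
  refine ⟨hfin.toFinset, ?_, ?_⟩
  · have h1 : hfin.toFinset.card ≤ T.card := by
      apply Finset.card_le_card_of_injOn f
      · intro m hm
        exact hmaps (by simpa using hm)
      · intro m hm m' hm' hh
        exact hinj (by simpa using hm) (by simpa using hm') hh
    have h2 : T.card = 2304 * R.card ^ 2 := by
      rw [hT, Finset.card_product, Finset.card_product]
      simp only [Finset.card_univ, Fintype.card_prod, Fintype.card_fin]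
      ring
    omega
  · intro m hm hmD
    rw [Set.Finite.mem_toFinset] at hmD
    have hm256 : 256 ≤ m := by norm_num at hm; omega
    obtain ⟨⟨q1, q2, q3, q4, q5⟩, ⟨r1, r2, r3, r4, r5⟩⟩ := h m hm256
    obtain ⟨s1, s2, s3⟩ := sc_spec m hm256
    have big : ∀ x, 4 ^ (sc m) ≤ x → 128 ^ 2 ≤ x ∧ m ≤ 64 * x := by
      intro x hx
      norm_num at hm ⊢
      constructor <;> omega
    by_cases hc : a1 m ∈ R ∨ b1 m ∈ R
    · have hc2 : ¬ (a2 m ∈ R ∨ b2 m ∈ R) := fun hc2 => hmD ⟨hm256, hc, hc2⟩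
      push Not at hc2
      refine ⟨a2 m, b2 m, Sk_sub _ (big _ r4).1 ?_, Sk_sub _ (big _ r5).1 ?_, hc2.1, hc2.2, r1,
        (big _ r4).2, (big _ r5).2⟩
      · exact Sk_mem (sc m) 2 _ (by norm_num) r2 r4 (by omega)
      · exact Sk_mem (sc m) 3 _ (by norm_num) r3 r5 (by omega)
    · push Not at hc
      refine ⟨a1 m, b1 m, Sk_sub _ (big _ q4).1 ?_, Sk_sub _ (big _ q5).1 ?_, hc.1, hc.2, q1,
        (big _ q4).2, (big _ q5).2⟩
      · exact Sk_mem (sc m) 0 _ (by norm_num) q2 q4 (by omega)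
      · exact Sk_mem (sc m) 1 _ (by norm_num) q3 q5 (by omega)

end Pool.Agent.Lib.MP_7e9031_nt
end

section

set_option autoImplicit false

namespace Pool.Agent.Lib.MP_7e9031_nt

/-- every `m ≥ 2^20` is a sum of two elements. -/
def Cov (A : Set ℕ) : Prop := ∀ m, 2 ^ 20 ≤ m → ∃ x ∈ A, ∃ y ∈ A, x + y = m

lemma cov_Ab : Cov Ab := by
  intro m hm
  obtain ⟨D, h1, h2⟩ := rob ∅
  have hD : D = ∅ := by
    rw [← Finset.card_eq_zero]; simpa using h1
  obtain ⟨x, y, hx, hy, -, -, hxy, -⟩ := h2 m hm (by rw [hD]; exact Finset.notMem_empty m)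
  exact ⟨x, hx, y, hy, hxy⟩

open Classical in
lemma add_one_pair (N m K : ℕ) (W : Set ℕ) (hK : cnt W (N + 1) ≤ K) (hm : N ≤ 2 * m) (hmN : m ≠ N)
    (hroom : 2 * K + 10 < N / 12) : ∃ x y, x + y = m ∧ N ≤ 6 * x ∧ N ≤ 6 * y ∧
    (∀ u ∈ W ∪ {x, y}, ∀ v ∈ W ∪ {x, y}, u + v = N → u ∈ W ∧ v ∈ W) := by
  have hgood : ∃ x ∈ Finset.Ico (N / 6 + 1) (N / 4), ¬ (N - x ∈ W) ∧
      ¬ (m - x ≤ N ∧ N - (m - x) ∈ W) ∧ ¬ (2 * (m - x) = N) := by
    by_contra hcon
    push Not at hcon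
    have hsub : Finset.Ico (N / 6 + 1) (N / 4) ⊆
        (Finset.Ico (N / 6 + 1) (N / 4)).filter (fun x => N - x ∈ W) ∪
        ((Finset.Ico (N / 6 + 1) (N / 4)).filter (fun x => m - x ≤ N ∧ N - (m - x) ∈ W) ∪
        (Finset.Ico (N / 6 + 1) (N / 4)).filter (fun x => 2 * (m - x) = N)) := by
      intro x hx
      rw [Finset.mem_union, Finset.mem_union, Finset.mem_filter, Finset.mem_filter,
        Finset.mem_filter]
      by_cases h1 : N - x ∈ W
      · exact Or.inl ⟨hx, h1⟩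
      · by_cases h2 : m - x ≤ N ∧ N - (m - x) ∈ W
        · exact Or.inr (Or.inl ⟨hx, h2⟩)
        · refine Or.inr (Or.inr ⟨hx, hcon x hx h1 ?_⟩)
          intro h3 h4; exact h2 ⟨h3, h4⟩
    have c1 : ((Finset.Ico (N / 6 + 1) (N / 4)).filter (fun x => N - x ∈ W)).card ≤ K := by
      refine le_trans ?_ hK
      unfold cnt
      apply Finset.card_le_card_of_injOn (fun x => N - x)
      · intro x hx
        simp only [Finset.coe_filter, Finset.mem_Ico, Set.mem_ofPred_eq, Finset.mem_range] at hx ⊢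
        exact ⟨by omega, hx.2⟩
      · intro x hx y hy hxy
        simp only [Finset.coe_filter, Finset.mem_Ico, Set.mem_ofPred_eq] at hx hy
        simp only at hxy
        omega
    have c2 : ((Finset.Ico (N / 6 + 1) (N / 4)).filter
        (fun x => m - x ≤ N ∧ N - (m - x) ∈ W)).card ≤ K := by
      refine le_trans ?_ hK
      unfold cnt
      apply Finset.card_le_card_of_injOn (fun x => N - (m - x))
      · intro x hx
        simp only [Finset.coe_filter, Finset.mem_Ico, Set.mem_ofPred_eq, Finset.mem_range] at hx ⊢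
        exact ⟨by omega, hx.2.2⟩
      · intro x hx y hy hxy
        simp only [Finset.coe_filter, Finset.mem_Ico, Set.mem_ofPred_eq] at hx hy
        simp only at hxy
        omega
    have c3 : ((Finset.Ico (N / 6 + 1) (N / 4)).filter (fun x => 2 * (m - x) = N)).card ≤ 1 := by
      rw [Finset.card_le_one]
      intro x hx y hy
      rw [Finset.mem_filter, Finset.mem_Ico] at hx hy
      omega
    have h1 := Finset.card_le_card hsub
    rw [Nat.card_Ico] at h1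
    have h2 := Finset.card_union_le ((Finset.Ico (N / 6 + 1) (N / 4)).filter (fun x => N - x ∈ W))
        ((Finset.Ico (N / 6 + 1) (N / 4)).filter (fun x => m - x ≤ N ∧ N - (m - x) ∈ W) ∪
        (Finset.Ico (N / 6 + 1) (N / 4)).filter (fun x => 2 * (m - x) = N))
    have h3 := Finset.card_union_le
        ((Finset.Ico (N / 6 + 1) (N / 4)).filter (fun x => m - x ≤ N ∧ N - (m - x) ∈ W))
        ((Finset.Ico (N / 6 + 1) (N / 4)).filter (fun x => 2 * (m - x) = N))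
    omega
  obtain ⟨x, hx, g1, g2, g3⟩ := hgood
  rw [Finset.mem_Ico] at hx
  refine ⟨x, m - x, by omega, by omega, by omega, ?_⟩
  intro u hu v hv huv
  simp only [Set.mem_union, Set.mem_insert_iff, Set.mem_singleton_iff] at hu hv
  rcases hu with hu | hu | hu
  · rcases hv with hv | hv | hv
    · exact ⟨hu, hv⟩
    · exfalso; apply g1
      have : N - x = u := by omega
      rw [this]; exact hu
    · exfalso; apply g2
      have : N - (m - x) = u := by omega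
      rw [this]; exact ⟨by omega, hu⟩
  · rcases hv with hv | hv | hv
    · exfalso; apply g1
      have : N - x = v := by omega
      rw [this]; exact hv
    · exfalso; omega
    · exfalso; omega
  · rcases hv with hv | hv | hv
    · exfalso; apply g2
      have : N - (m - x) = v := by omega
      rw [this]; exact ⟨by omega, hv⟩
    · exfalso; omega
    · exfalso; omega

lemma cnt_union_le (W : Set ℕ) (E : Finset ℕ) (x : ℕ) :
    cnt (W ∪ (E : Set ℕ)) x ≤ cnt W x + E.card := by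
  classical
  unfold cnt
  refine (Finset.card_le_card ?_).trans (Finset.card_union_le _ E)
  intro t ht
  simp only [Finset.mem_filter, Set.mem_union, Finset.mem_coe, Finset.mem_union] at ht ⊢
  tauto

lemma cnt_subset {A B : Set ℕ} (h : A ⊆ B) (x : ℕ) : cnt A x ≤ cnt B x := by
  classical
  unfold cnt
  apply Finset.card_le_card
  intro t ht
  rw [Finset.mem_filter] at *
  exact ⟨ht.1, h ht.2⟩

lemma add_pairs (N K : ℕ) (W : Set ℕ) (hK : cnt W (N + 1) ≤ K) (D : Finset ℕ) :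
    (∀ m ∈ D, N ≤ 2 * m ∧ m ≠ N) → (2 * (K + 2 * D.card) + 10 < N / 12) →
    ∃ E : Finset ℕ, E.card ≤ 2 * D.card ∧ (∀ t ∈ E, N ≤ 6 * t) ∧
    (∀ m ∈ D, ∃ x ∈ W ∪ (E : Set ℕ), ∃ y ∈ W ∪ (E : Set ℕ), x + y = m) ∧
    (∀ u ∈ W ∪ (E : Set ℕ), ∀ v ∈ W ∪ (E : Set ℕ), u + v = N → u ∈ W ∧ v ∈ W) := by
  classical
  induction D using Finset.induction_on with
  | empty =>
    intro _ _
    refine ⟨∅, by simp, by simp, by simp, ?_⟩
    intro u hu v hv huv
    simp only [Finset.coe_empty, Set.union_empty] at hu hv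
    exact ⟨hu, hv⟩
  | insert m D hmD ih =>
    intro hD hroom
    rw [Finset.card_insert_of_notMem hmD] at hroom
    obtain ⟨E, e1, e2, e3, e4⟩ := ih (fun m' hm' => hD m' (Finset.mem_insert_of_mem hm')) (by omega)
    obtain ⟨hm1, hm2⟩ := hD m (Finset.mem_insert_self m D)
    have hK' : cnt (W ∪ (E : Set ℕ)) (N + 1) ≤ K + 2 * D.card :=
      (cnt_union_le W E (N + 1)).trans (by omega)
    obtain ⟨x, y, hxy, hx, hy, huniq⟩ := add_one_pair N m (K + 2 * D.card) (W ∪ (E : Set ℕ)) hK'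
      hm1 hm2 (by omega)
    have hset : W ∪ ((E ∪ {x, y} : Finset ℕ) : Set ℕ) = W ∪ (E : Set ℕ) ∪ {x, y} := by
      ext t
      simp only [Finset.coe_union, Finset.coe_insert, Finset.coe_singleton, Set.mem_union,
        Finset.mem_coe, Set.mem_insert_iff, Set.mem_singleton_iff]
      tauto
    refine ⟨E ∪ {x, y}, ?_, ?_, ?_, ?_⟩
    · rw [Finset.card_insert_of_notMem hmD]
      have h1 := Finset.card_union_le E {x, y}
      have h2 : ({x, y} : Finset ℕ).card ≤ 2 := Finset.card_le_two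
      omega
    · intro t ht
      simp only [Finset.mem_union, Finset.mem_insert, Finset.mem_singleton] at ht
      rcases ht with ht | rfl | rfl
      · exact e2 t ht
      · exact hx
      · exact hy
    · intro m' hm'
      rw [hset]
      rw [Finset.mem_insert] at hm'
      rcases hm' with rfl | hm'
      · exact ⟨x, Or.inr (by simp), y, Or.inr (by simp), hxy⟩
      · obtain ⟨u, hu, v, hv, huv⟩ := e3 m' hm'
        exact ⟨u, Or.inl hu, v, Or.inl hv, huv⟩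
    · intro u hu v hv huv
      rw [hset] at hu hv
      obtain ⟨h1, h2⟩ := huniq u hu v hv huv
      exact e4 u h1 v h2 huv

/-- a target with few representations -/
lemma exists_target (A : Set ℕ) (X K k : ℕ) (hX : 0 < X) (hK : cnt A (2 * X + 1) ≤ K)
    (hKX : K * K ≤ X * k) : ∃ N, X < N ∧ N ≤ 2 * X ∧ ∃ R : Finset ℕ, R.card ≤ k ∧
      ∀ y, y ∈ R ↔ (y ∈ A ∧ N ≤ 2 * y ∧ y ≤ N ∧ N - y ∈ A) := by
  classical
  set s := (Finset.range (2 * X + 1)).filter (fun t => t ∈ A) with hs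
  have hscard : s.card ≤ K := hK
  have h1 : ((s ×ˢ s).card : ℕ) ≤ (Finset.Ioc X (2 * X)).card • k := by
    rw [Finset.card_product, Nat.card_Ioc, smul_eq_mul]
    have : 2 * X - X = X := by omega
    rw [this]
    exact (Nat.mul_le_mul hscard hscard).trans hKX
  have hne : (Finset.Ioc X (2 * X)).Nonempty := ⟨2 * X, by rw [Finset.mem_Ioc]; omega⟩
  obtain ⟨N, hN, hcard⟩ := Finset.exists_card_fiber_le_of_card_le_nsmul
    (f := fun p : ℕ × ℕ => p.1 + p.2) hne h1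
  rw [Finset.mem_Ioc] at hN
  refine ⟨N, hN.1, hN.2, (Finset.range (N + 1)).filter
    (fun y => y ∈ A ∧ N ≤ 2 * y ∧ y ≤ N ∧ N - y ∈ A), ?_, ?_⟩
  · refine le_trans ?_ hcard
    apply Finset.card_le_card_of_injOn (fun y => (y, N - y))
    · intro y hy
      simp only [Finset.coe_filter, Finset.mem_range, Set.mem_ofPred_eq] at hy
      simp only [Finset.coe_filter, Finset.mem_product, Set.mem_ofPred_eq, hs, Finset.mem_filter,
        Finset.mem_range]
      refine ⟨⟨⟨by omega, hy.2.1⟩, by omega, hy.2.2.2.2⟩, by omega⟩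
    · intro y _ y' _ h
      simp only [Prod.mk.injEq] at h
      exact h.1
  · intro y
    simp only [Finset.mem_filter, Finset.mem_range]
    constructor
    · exact fun h => h.2
    · exact fun h => ⟨by omega, h⟩

lemma cnt_le_of_agree (A : Set ℕ) (H : ℕ) (hH : ∀ t, H ≤ t → (t ∈ A ↔ t ∈ Ab)) (x : ℕ) :
    cnt A x ≤ cnt Ab x + H := by
  classical
  unfold cnt
  calc ((Finset.range x).filter (fun t => t ∈ A)).card
      ≤ ((Finset.range x).filter (fun t => t ∈ Ab) ∪ Finset.range H).card := by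
        apply Finset.card_le_card
        intro t ht
        simp only [Finset.mem_filter, Finset.mem_union, Finset.mem_range] at ht ⊢
        by_cases h : t < H
        · exact Or.inr h
        · exact Or.inl ⟨ht.1, (hH t (by omega)).mp ht.2⟩
    _ ≤ ((Finset.range x).filter (fun t => t ∈ Ab)).card + (Finset.range H).card :=
        Finset.card_union_le _ _
    _ = _ := by rw [Finset.card_range]

lemma stage (A : Set ℕ) (H : ℕ) (hH : ∀ t, H ≤ t → (t ∈ A ↔ t ∈ Ab)) (hcov : Cov A)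
    (a : ℕ) (ha : a ∈ A) (L i : ℕ) :
    ∃ (A' : Set ℕ) (N : ℕ) (C : Finset ℕ), L < N ∧ Cov A' ∧
      (∀ t ∈ C, L < t ∧ C.card * 2 ^ i ≤ Nat.sqrt t) ∧
      (∀ t, t ∉ C → (t ∈ A' ↔ t ∈ A)) ∧
      (∀ x ∈ A', ∀ y ∈ A', x + y = N → x = a ∨ y = a) := by
  classical
  obtain ⟨k, hk⟩ : ∃ k : ℕ, k = 786432 := ⟨_, rfl⟩
  obtain ⟨K2, hK2⟩ : ∃ K2 : ℕ, K2 = 2304 * k ^ 2 := ⟨_, rfl⟩
  obtain ⟨K1, hK1⟩ : ∃ K1 : ℕ, K1 = k + 1 + 2 * K2 := ⟨_, rfl⟩
  obtain ⟨Z, hZ⟩ : ∃ Z : ℕ, Z = 3 * (K1 * 2 ^ i) + 6 * L + H + a + 30000 := ⟨_, rfl⟩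
  have hK1i : K1 ≤ K1 * 2 ^ i := Nat.le_mul_of_pos_right _ (by positivity)
  have hZ0 : 30000 ≤ Z := by omega
  have hZZ : Z * 30000 ≤ Z * Z := Nat.mul_le_mul_left _ hZ0
  have hsq1 : Nat.sqrt (2 * (Z * Z) + 1) ≤ 2 * Z := by
    rw [← Nat.lt_succ_iff, Nat.sqrt_lt]
    have : (2 * Z).succ * (2 * Z).succ = 4 * (Z * Z) + 4 * Z + 1 := by
      rw [Nat.succ_eq_add_one]; ring
    rw [this]; omega
  have hsq2 : Z ≤ Nat.sqrt (2 * (Z * Z) + 1) := by
    rw [Nat.le_sqrt]; omega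
  -- counting
  obtain ⟨s, hs⟩ : ∃ s, s = Nat.sqrt (2 * (Z * Z) + 1) := ⟨_, rfl⟩
  have hsle : s * s ≤ 2 * (Z * Z) + 1 := by rw [hs]; exact Nat.sqrt_le _
  have hcnt : cnt A (2 * (Z * Z) + 1) ≤ 512 * s := by
    have h1 := cnt_le_of_agree A H hH (2 * (Z * Z) + 1)
    have h2 := cnt_Ab_upper (2 * (Z * Z) + 1)
    rw [← hs] at h2
    rw [← hs] at hsq2
    omega
  have hKX : (512 * s) * (512 * s) ≤ (Z * Z) * k := by
    have : (512 * s) * (512 * s) = 262144 * (s * s) := by ring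
    rw [this, hk]
    nlinarith
  obtain ⟨N, hN1, hN2, R, hRcard, hR⟩ := exists_target A (Z * Z) (512 * s) k (by nlinarith) hcnt hKX
  obtain ⟨D0, hD0card, hD0⟩ := rob R
  set D := D0.filter (fun m => N ≤ 2 * m ∧ m ≠ N) with hD
  have hDcard : D.card ≤ K2 := by
    calc D.card ≤ D0.card := Finset.card_filter_le _ _
      _ ≤ 2304 * R.card ^ 2 := hD0card
      _ ≤ 2304 * k ^ 2 := Nat.mul_le_mul_left _ (Nat.pow_le_pow_left hRcard 2)
      _ = K2 := hK2.symm
  set W : Set ℕ := (A \ (R : Set ℕ)) ∪ {N - a} with hW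
  have hWcnt : cnt W (N + 1) ≤ 1024 * Z + 1 := by
    have h1 : cnt W (N + 1) ≤ cnt A (N + 1) + 1 := by
      have h2 := cnt_union_le (A \ (R : Set ℕ)) {N - a} (N + 1)
      have h3 : cnt (A \ (R : Set ℕ)) (N + 1) ≤ cnt A (N + 1) := cnt_subset (fun t ht => ht.1) _
      simp only [Finset.coe_singleton, Finset.card_singleton] at h2
      rw [hW]; omega
    have h4 : cnt A (N + 1) ≤ cnt A (2 * (Z * Z) + 1) := cnt_mono A (by omega)
    omega
  have hN12 : 2500 * Z ≤ N / 12 := by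
    rw [Nat.le_div_iff_mul_le (by norm_num)]; omega
  obtain ⟨E, e1, e2, e3, e4⟩ := add_pairs N (1024 * Z + 1) W hWcnt D
    (fun m hm => (Finset.mem_filter.mp hm).2) (by omega)
  have haN : 2 * a < N := by omega
  have haR : a ∉ R := by
    intro h
    have := ((hR a).mp h).2.1
    omega
  refine ⟨W ∪ (E : Set ℕ), N, R ∪ {N - a} ∪ E, by omega, ?_, ?_, ?_, ?_⟩
  · -- covering
    intro m hm
    by_cases hmN : 2 * m < N
    · obtain ⟨x, hx, y, hy, hxy⟩ := hcov m hm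
      refine ⟨x, Or.inl (Or.inl ⟨hx, ?_⟩), y, Or.inl (Or.inl ⟨hy, ?_⟩), hxy⟩
      · intro h
        have := ((hR x).mp h).2.1
        omega
      · intro h
        have := ((hR y).mp h).2.1
        omega
    · by_cases hmN' : m = N
      · refine ⟨a, Or.inl (Or.inl ⟨ha, haR⟩), N - a, Or.inl (Or.inr rfl), by omega⟩
      · by_cases hmD : m ∈ D0
        · exact e3 m (Finset.mem_filter.mpr ⟨hmD, by omega, hmN'⟩)
        · obtain ⟨x, y, hx, hy, hxR, hyR, hxy, hx64, hy64⟩ := hD0 m hm hmD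
          have hbig : ∀ x, m ≤ 64 * x → H ≤ x := by
            intro x hx
            have : Z * 128 ≤ Z * Z := Nat.mul_le_mul_left _ (by omega)
            omega
          refine ⟨x, Or.inl (Or.inl ⟨(hH x (hbig x hx64)).mpr hx, hxR⟩), y,
            Or.inl (Or.inl ⟨(hH y (hbig y hy64)).mpr hy, hyR⟩), hxy⟩
  · -- size of changes
    intro t ht
    have ht6 : N ≤ 6 * t := by
      simp only [Finset.mem_union, Finset.mem_singleton] at ht
      rcases ht with (ht | ht) | ht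
      · have := ((hR t).mp ht).2.1
        omega
      · omega
      · exact e2 t ht
    have hcardC : (R ∪ {N - a} ∪ E).card ≤ K1 := by
      have h1 := Finset.card_union_le (R ∪ {N - a}) E
      have h2 := Finset.card_union_le R {N - a}
      rw [Finset.card_singleton] at h2
      omega
    constructor
    · omega
    · rw [Nat.le_sqrt]
      have h1 : (R ∪ {N - a} ∪ E).card * 2 ^ i ≤ K1 * 2 ^ i := Nat.mul_le_mul_right _ hcardC
      have h2 : 3 * (K1 * 2 ^ i) ≤ Z := by omega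
      have h3 : (3 * (K1 * 2 ^ i)) * (3 * (K1 * 2 ^ i)) ≤ Z * Z := Nat.mul_le_mul h2 h2
      have h4 : (R ∪ {N - a} ∪ E).card * 2 ^ i * ((R ∪ {N - a} ∪ E).card * 2 ^ i) ≤
        K1 * 2 ^ i * (K1 * 2 ^ i) := Nat.mul_le_mul h1 h1
      have h5 : (3 * (K1 * 2 ^ i)) * (3 * (K1 * 2 ^ i)) = 9 * (K1 * 2 ^ i * (K1 * 2 ^ i)) := by ring
      omega
  · -- agreement off C
    intro t ht
    simp only [Finset.mem_union, Finset.mem_singleton, not_or] at ht
    simp only [hW, Set.mem_union, Set.mem_sdiff, Set.mem_singleton_iff, Finset.mem_coe]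
    tauto
  · -- uniqueness
    intro x hx y hy hxy
    obtain ⟨hx', hy'⟩ := e4 x hx y hy hxy
    rcases hx' with hx' | hx'
    · rcases hy' with hy' | hy'
      · exfalso
        rcases le_total x y with hle | hle
        · apply hy'.2
          have : N - y = x := by omega
          exact (hR y).mpr ⟨hy'.1, by omega, by omega, by rw [this]; exact hx'.1⟩
        · apply hx'.2
          have : N - x = y := by omega
          exact (hR x).mpr ⟨hx'.1, by omega, by omega, by rw [this]; exact hy'.1⟩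
      · left
        rw [Set.mem_singleton_iff] at hy'
        omega
    · right
      rw [Set.mem_singleton_iff] at hx'
      omega

end Pool.Agent.Lib.MP_7e9031_nt
end

section

set_option autoImplicit false

open Filter Topology

namespace Pool.Agent.Lib.MP_7e9031_nt

/-- A state of the iterative construction. -/
structure St where
  A : Set ℕ
  L : ℕ
  H : ℕ
  hH : ∀ t, H ≤ t → (t ∈ A ↔ t ∈ Ab)
  hcov : Cov A

/-- The element treated at stage `i`. -/
def el (i : ℕ) : ℕ := (Nat.unpair i).1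

lemma exists_next (s : St) (i : ℕ) : ∃ (s' : St) (C : Finset ℕ), s.L < s'.L ∧
    (∀ t ∈ C, s.L < t ∧ C.card * 2 ^ i ≤ Nat.sqrt t) ∧ (∀ t, t ∉ C → (t ∈ s'.A ↔ t ∈ s.A)) ∧
    (el i ∈ s.A → ∃ N, s.L < N ∧ N ≤ s'.L ∧
      ∀ x ∈ s'.A, ∀ y ∈ s'.A, x + y = N → x = el i ∨ y = el i) := by
  by_cases h : el i ∈ s.A
  · obtain ⟨A', N, C, h1, h2, h3, h4, h5⟩ := stage s.A s.H s.hH s.hcov (el i) h s.L i
    refine ⟨⟨A', N, max s.H (C.sup id + 1), ?_, h2⟩, C, h1, h3, h4, fun _ => ⟨N, h1, le_rfl, h5⟩⟩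
    intro t ht
    have ht1 : s.H ≤ t := le_trans (le_max_left _ _) ht
    have ht2 : C.sup id + 1 ≤ t := le_trans (le_max_right _ _) ht
    have hC : t ∉ C := by
      intro hc
      have : id t ≤ C.sup id := Finset.le_sup hc
      simp only [id] at this
      omega
    rw [h4 t hC, s.hH t ht1]
  · refine ⟨⟨s.A, s.L + 1, s.H, s.hH, s.hcov⟩, ∅, by simp, by simp, by simp,
      fun h' => absurd h' h⟩

/-- next state -/
noncomputable def nx (s : St) (i : ℕ) : St := Classical.choose (exists_next s i)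

/-- the change set -/
noncomputable def ch (s : St) (i : ℕ) : Finset ℕ :=
  Classical.choose (Classical.choose_spec (exists_next s i))

lemma nx_spec (s : St) (i : ℕ) : s.L < (nx s i).L ∧
    (∀ t ∈ ch s i, s.L < t ∧ (ch s i).card * 2 ^ i ≤ Nat.sqrt t) ∧
    (∀ t, t ∉ ch s i → (t ∈ (nx s i).A ↔ t ∈ s.A)) ∧
    (el i ∈ s.A → ∃ N, s.L < N ∧ N ≤ (nx s i).L ∧
      ∀ x ∈ (nx s i).A, ∀ y ∈ (nx s i).A, x + y = N → x = el i ∨ y = el i) :=
  Classical.choose_spec (Classical.choose_spec (exists_next s i))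

/-- sequence of states -/
noncomputable def sq : ℕ → St
  | 0 => ⟨Ab, 0, 0, fun _ _ => Iff.rfl, cov_Ab⟩
  | (i+1) => nx (sq i) i

/-- change sets -/
noncomputable def CC (i : ℕ) : Finset ℕ := ch (sq i) i

lemma sq_zero : (sq 0).A = Ab := rfl

lemma L_ge (i : ℕ) : i ≤ (sq i).L := by
  induction i with
  | zero => exact Nat.zero_le _
  | succ i ih =>
    have := (nx_spec (sq i) i).1
    have e : sq (i+1) = nx (sq i) i := rfl
    rw [e]; omega

lemma L_mono {i j : ℕ} (h : i ≤ j) : (sq i).L ≤ (sq j).L := by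
  induction j, h using Nat.le_induction with
  | base => exact le_rfl
  | succ j hj ih =>
    have := (nx_spec (sq j) j).1
    have e : sq (j+1) = nx (sq j) j := rfl
    rw [e]; omega

lemma stable_step (j t : ℕ) (ht : t ∉ CC j) : t ∈ (sq (j+1)).A ↔ t ∈ (sq j).A :=
  (nx_spec (sq j) j).2.2.1 t ht

lemma not_CC {i j t : ℕ} (h : i ≤ j) (ht : t ≤ (sq i).L) : t ∉ CC j := by
  intro hc
  have h1 := ((nx_spec (sq j) j).2.1 t hc).1
  have h2 := L_mono h
  omega

lemma stable {i j t : ℕ} (h : i ≤ j) (ht : t ≤ (sq i).L) : t ∈ (sq j).A ↔ t ∈ (sq i).A := by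
  induction j, h using Nat.le_induction with
  | base => exact Iff.rfl
  | succ j hj ih => rw [stable_step j t (not_CC hj ht), ih]

/-- the limit set -/
def Ainf : Set ℕ := {t | t ∈ (sq t).A}

lemma mem_Ainf {j t : ℕ} (ht : t ≤ (sq j).L) : t ∈ Ainf ↔ t ∈ (sq j).A := by
  rcases le_total j t with h | h
  · exact stable h ht
  · exact (stable h (L_ge t)).symm

lemma cov_Ainf : Cov Ainf := by
  intro m hm
  obtain ⟨x, hx, y, hy, hxy⟩ := (sq m).hcov m hm
  have h1 := L_ge m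
  exact ⟨x, (mem_Ainf (by omega)).mpr hx, y, (mem_Ainf (by omega)).mpr hy, hxy⟩

lemma minimal (B : Set ℕ) (hB : B ⊂ Ainf) :
    ¬ ∃ N : ℕ, ∀ n ≥ N, ∃ a ∈ B, ∃ b ∈ B, a + b = n := by
  rintro ⟨N0, hN0⟩
  obtain ⟨hsub, hne⟩ := hB
  obtain ⟨a, ha, haB⟩ := Set.not_subset.mp hne
  set i := Nat.pair a (N0 + a) with hi
  have hel : el i = a := by rw [hi, el, Nat.unpair_pair]
  have hi1 : N0 + a ≤ i := by rw [hi]; exact Nat.right_le_pair _ _
  have hLi := L_ge i
  have haA : el i ∈ (sq i).A := by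
    rw [hel]; exact (mem_Ainf (by omega)).mp ha
  obtain ⟨N, h1, h2, h3⟩ := (nx_spec (sq i) i).2.2.2 haA
  obtain ⟨x, hx, y, hy, hxy⟩ := hN0 N (by omega)
  have e : sq (i+1) = nx (sq i) i := rfl
  rw [← e] at h2 h3
  have hx' : x ∈ (sq (i+1)).A := (mem_Ainf (by omega)).mp (hsub hx)
  have hy' : y ∈ (sq (i+1)).A := (mem_Ainf (by omega)).mp (hsub hy)
  rcases h3 x hx' y hy' hxy with h | h
  · rw [hel] at h; subst h; exact haB hx
  · rw [hel] at h; subst h; exact haB hy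

lemma diff_mem (x t : ℕ) (htx : t < x) (h : ∀ i < x, t ∉ CC i) : t ∈ Ainf ↔ t ∈ Ab := by
  have key : ∀ j ≤ x, (t ∈ (sq j).A ↔ t ∈ Ab) := by
    intro j hj
    induction j with
    | zero => exact Iff.rfl
    | succ j ih => rw [stable_step j t (h j (by omega)), ih (by omega)]
  exact key t htx.le

open Classical in
/-- total number of changes below `x` -/
noncomputable def De (x : ℕ) : ℕ :=
  ∑ i ∈ Finset.range x, ((CC i).filter (fun t => t < x)).card

lemma cnt_diff (x : ℕ) : cnt Ainf x ≤ cnt Ab x + De x ∧ cnt Ab x ≤ cnt Ainf x + De x := by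
  classical
  have hD : ((Finset.range x).biUnion (fun i => (CC i).filter (fun t => t < x))).card ≤ De x := by
    unfold De
    refine le_trans Finset.card_biUnion_le (le_of_eq ?_)
    apply Finset.sum_congr rfl
    intro i _
    congr!
  constructor
  · unfold cnt
    refine (Finset.card_le_card ?_).trans ((Finset.card_union_le _
      ((Finset.range x).biUnion (fun i => (CC i).filter (fun t => t < x)))).trans
      (Nat.add_le_add_left hD _))
    intro t ht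
    rw [Finset.mem_filter, Finset.mem_range] at ht
    rw [Finset.mem_union, Finset.mem_filter, Finset.mem_range, Finset.mem_biUnion]
    by_cases hc : ∀ i < x, t ∉ CC i
    · exact Or.inl ⟨ht.1, (diff_mem x t ht.1 hc).mp ht.2⟩
    · push Not at hc
      obtain ⟨i, hi, hti⟩ := hc
      exact Or.inr ⟨i, Finset.mem_range.mpr hi, Finset.mem_filter.mpr ⟨hti, ht.1⟩⟩
  · unfold cnt
    refine (Finset.card_le_card ?_).trans ((Finset.card_union_le _
      ((Finset.range x).biUnion (fun i => (CC i).filter (fun t => t < x)))).trans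
      (Nat.add_le_add_left hD _))
    intro t ht
    rw [Finset.mem_filter, Finset.mem_range] at ht
    rw [Finset.mem_union, Finset.mem_filter, Finset.mem_range, Finset.mem_biUnion]
    by_cases hc : ∀ i < x, t ∉ CC i
    · exact Or.inl ⟨ht.1, (diff_mem x t ht.1 hc).mpr ht.2⟩
    · push Not at hc
      obtain ⟨i, hi, hti⟩ := hc
      exact Or.inr ⟨i, Finset.mem_range.mpr hi, Finset.mem_filter.mpr ⟨hti, ht.1⟩⟩

open Classical in
lemma CC_filter_bound (i x : ℕ) :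
    (((CC i).filter (fun t => t < x)).card : ℝ) ≤ Real.sqrt x * (1 / 2 ^ i) := by
  by_cases hne : ((CC i).filter (fun t => t < x)).Nonempty
  · obtain ⟨t, ht⟩ := hne
    rw [Finset.mem_filter] at ht
    have h1 := ((nx_spec (sq i) i).2.1 t ht.1).2
    have h2 : ((CC i).filter (fun t => t < x)).card ≤ (CC i).card := Finset.card_filter_le _ _
    have h3 : ((CC i).card * 2 ^ i : ℝ) ≤ Real.sqrt x := by
      have h4 : ((CC i).card * 2 ^ i : ℝ) ≤ (Nat.sqrt t : ℝ) := by exact_mod_cast h1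
      refine h4.trans ((Real.nat_sqrt_le_real_sqrt).trans (Real.sqrt_le_sqrt ?_))
      exact_mod_cast ht.2.le
    have h5 : (((CC i).filter (fun t => t < x)).card : ℝ) ≤ (CC i).card := by exact_mod_cast h2
    rw [mul_one_div, le_div_iff₀ (by positivity)]
    refine le_trans (mul_le_mul_of_nonneg_right h5 (by positivity)) h3
  · rw [Finset.not_nonempty_iff_eq_empty] at hne
    rw [hne]
    simp only [Finset.card_empty, Nat.cast_zero]
    positivity

lemma De_bound (I x : ℕ) : (De x : ℝ) ≤ (∑ i ∈ Finset.range I, ((CC i).card : ℝ)) +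
    Real.sqrt x * (2 / 2 ^ I) := by
  classical
  have hc : ∀ i, (((CC i).filter (fun t => t < x)).card : ℝ) ≤ (CC i).card := by
    intro i; exact_mod_cast Finset.card_filter_le _ _
  have hsx : 0 ≤ Real.sqrt x := Real.sqrt_nonneg _
  have key : ∀ n, I ≤ n → ∑ i ∈ Finset.range n, (((CC i).filter (fun t => t < x)).card : ℝ) ≤
      (∑ i ∈ Finset.range I, ((CC i).card : ℝ)) + Real.sqrt x * (2 / 2 ^ I - 2 / 2 ^ n) := by
    intro n hn
    induction n, hn using Nat.le_induction with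
    | base =>
      rw [sub_self, mul_zero, add_zero]
      exact Finset.sum_le_sum (fun i _ => hc i)
    | succ n hn ih =>
      rw [Finset.sum_range_succ]
      have h1 := CC_filter_bound n x
      have h2 : (2:ℝ) / 2 ^ n - 2 / 2 ^ (n + 1) = 1 / 2 ^ n := by
        rw [pow_succ]; field_simp; norm_num
      have h3 : Real.sqrt x * (2 / 2 ^ I - 2 / 2 ^ (n + 1)) =
          Real.sqrt x * (2 / 2 ^ I - 2 / 2 ^ n) + Real.sqrt x * (1 / 2 ^ n) := by
        rw [← h2]; ring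
      rw [h3]
      have h1' : (((CC n).filter (fun t => t < x)).card : ℝ) ≤ Real.sqrt x * (1 / 2 ^ n) := by
        convert h1
      linarith
  have h1 : (De x : ℝ) ≤ ∑ i ∈ Finset.range (max I x),
      (((CC i).filter (fun t => t < x)).card : ℝ) := by
    unfold De
    push_cast
    refine le_trans (le_of_eq ?_) (Finset.sum_le_sum_of_subset_of_nonneg
      (Finset.range_mono (le_max_right I x)) (fun i _ _ => Nat.cast_nonneg _))
    apply Finset.sum_congr rfl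
    intro i _
    congr!
  refine h1.trans ((key _ (le_max_left I x)).trans ?_)
  have h4 : 0 ≤ (2:ℝ) / 2 ^ (max I x) := by positivity
  have h5 : Real.sqrt x * (2 / 2 ^ I - 2 / 2 ^ (max I x)) ≤ Real.sqrt x * (2 / 2 ^ I) :=
    mul_le_mul_of_nonneg_left (by linarith) hsx
  linarith

lemma De_small (ε : ℝ) (hε : 0 < ε) : ∀ᶠ x : ℕ in atTop, (De x : ℝ) ≤ ε * Real.sqrt x := by
  obtain ⟨I, hI⟩ := exists_nat_gt (4 / ε)
  have hI2 : (2:ℝ) / 2 ^ I ≤ ε / 2 := by
    have h1 : (I:ℝ) < 2 ^ I := by exact_mod_cast Nat.lt_two_pow_self (n := I)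
    rw [div_le_iff₀ (by positivity)]
    rw [div_lt_iff₀ hε] at hI
    nlinarith
  have hlim : Tendsto (fun x : ℕ => Real.sqrt (x : ℝ)) atTop atTop :=
    Real.tendsto_sqrt_atTop.comp tendsto_natCast_atTop_atTop
  filter_upwards [hlim.eventually_ge_atTop
    ((∑ i ∈ Finset.range I, ((CC i).card : ℝ)) * (2 / ε))] with x hx
  have h1 := De_bound I x
  have h2 : (∑ i ∈ Finset.range I, ((CC i).card : ℝ)) ≤ Real.sqrt x * (ε / 2) := by
    have h3 : (∑ i ∈ Finset.range I, ((CC i).card : ℝ)) =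
        (∑ i ∈ Finset.range I, ((CC i).card : ℝ)) * (2 / ε) * (ε / 2) := by
      field_simp
    rw [h3]
    exact mul_le_mul_of_nonneg_right hx (by positivity)
  have h4 : Real.sqrt x * (2 / 2 ^ I) ≤ Real.sqrt x * (ε / 2) :=
    mul_le_mul_of_nonneg_left hI2 (Real.sqrt_nonneg _)
  nlinarith

lemma cnt_Ab_real (x : ℕ) : 256 * Real.sqrt x - 256 * 129 ≤ cnt Ab x ∧
    (cnt Ab x : ℝ) ≤ 256 * Real.sqrt x + 256 := by
  have h1 := cnt_Ab_upper x
  have h2 := cnt_Ab_lower x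
  have h3 : (Nat.sqrt x : ℝ) ≤ Real.sqrt x := Real.nat_sqrt_le_real_sqrt
  have h4 : Real.sqrt x < Nat.sqrt x + 1 := Real.real_sqrt_lt_nat_sqrt_succ
  constructor
  · have h5 : 256 * Nat.sqrt x ≤ cnt Ab x + 256 * 128 := by omega
    have h6 : (256 * Nat.sqrt x : ℝ) ≤ cnt Ab x + 256 * 128 := by exact_mod_cast h5
    linarith
  · have h6 : (cnt Ab x : ℝ) ≤ 256 * (Nat.sqrt x + 1) := by exact_mod_cast h1
    linarith

lemma cnt_tendsto : Tendsto (fun x : ℕ => (cnt Ainf x : ℝ) / Real.sqrt x) atTop (𝓝 256) := by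
  rw [Metric.tendsto_nhds]
  intro ε hε
  have hlim : Tendsto (fun x : ℕ => Real.sqrt (x : ℝ)) atTop atTop :=
    Real.tendsto_sqrt_atTop.comp tendsto_natCast_atTop_atTop
  filter_upwards [De_small (ε / 4) (by positivity), hlim.eventually_ge_atTop (256 * 129 * (4 / ε)),
    hlim.eventually_gt_atTop 0] with x h1 h2 h3
  obtain ⟨d1, d2⟩ := cnt_diff x
  obtain ⟨c1, c2⟩ := cnt_Ab_real x
  have d1' : (cnt Ainf x : ℝ) ≤ cnt Ab x + De x := by exact_mod_cast d1
  have d2' : (cnt Ab x : ℝ) ≤ cnt Ainf x + De x := by exact_mod_cast d2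
  have h4 : (256 * 129 : ℝ) ≤ ε / 4 * Real.sqrt x := by
    have := mul_le_mul_of_nonneg_left h2 (show 0 ≤ ε / 4 by positivity)
    have e : ε / 4 * (256 * 129 * (4 / ε)) = 256 * 129 := by field_simp
    linarith
  rw [Real.dist_eq, abs_lt]
  constructor
  · rw [lt_sub_iff_add_lt, lt_div_iff₀ h3]
    nlinarith
  · rw [sub_lt_iff_lt_add, div_lt_iff₀ h3]
    nlinarith

lemma Ainf_infinite : Ainf.Infinite := by
  intro hfin
  have h1 : ∃ K, ∀ x, cnt Ainf x ≤ K := by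
    classical
    refine ⟨hfin.toFinset.card, fun x => ?_⟩
    unfold cnt
    apply Finset.card_le_card
    intro t ht
    rw [Finset.mem_filter] at ht
    rw [Set.Finite.mem_toFinset]
    exact ht.2
  obtain ⟨K, hK⟩ := h1
  have hlim : Tendsto (fun x : ℕ => Real.sqrt (x : ℝ)) atTop atTop :=
    Real.tendsto_sqrt_atTop.comp tendsto_natCast_atTop_atTop
  have h2 := cnt_tendsto.eventually (lt_mem_nhds (show (255:ℝ) < 256 by norm_num))
  obtain ⟨x, hx1, hx2, hx3⟩ := (h2.and ((hlim.eventually_gt_atTop (K:ℝ)).and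
    (hlim.eventually_gt_atTop 0))).exists
  rw [lt_div_iff₀ hx3] at hx1
  have h3 : (cnt Ainf x : ℝ) ≤ K := by exact_mod_cast hK x
  nlinarith

lemma nth_tendsto :
    Tendsto (fun k : ℕ => (Nat.nth (· ∈ Ainf) k : ℝ) / ((k : ℝ) + 1) ^ 2) atTop
      (𝓝 (1 / 65536)) := by
  classical
  have hinf : (Set.ofPred (· ∈ Ainf)).Infinite := Ainf_infinite
  have hnth : Tendsto (Nat.nth (· ∈ Ainf)) atTop atTop := (Nat.nth_strictMono hinf).tendsto_atTop
  have hcnt : ∀ k, cnt Ainf (Nat.nth (· ∈ Ainf) k) = k := by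
    intro k
    have h1 := Nat.count_nth_of_infinite hinf k
    rw [Nat.count_eq_card_filter_range] at h1
    unfold cnt
    convert h1
  have h1 := cnt_tendsto.comp hnth
  have h2 : Tendsto (fun k : ℕ => (k : ℝ) / Real.sqrt (Nat.nth (· ∈ Ainf) k)) atTop (𝓝 256) := by
    refine h1.congr (fun k => ?_)
    simp only [Function.comp_apply, hcnt k]
  have h3 := (h2.inv₀ (by norm_num)).pow 2
  have h4 : Tendsto (fun k : ℕ => ((k : ℝ) / ((k : ℝ) + 1)) ^ 2) atTop (𝓝 (1 ^ 2)) :=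
    (tendsto_natCast_div_add_atTop (1:ℝ)).pow 2
  have h5 := h3.mul h4
  have e : ((256:ℝ)⁻¹ ^ 2 * 1 ^ 2) = 1 / 65536 := by norm_num
  rw [e] at h5
  refine h5.congr' ?_
  filter_upwards [eventually_gt_atTop 0] with k hk
  have hk' : (k:ℝ) ≠ 0 := by positivity
  have h6 : (0:ℝ) ≤ (Nat.nth (· ∈ Ainf) k : ℕ) := Nat.cast_nonneg _
  rw [inv_div, div_pow, div_pow, Real.sq_sqrt h6]
  have : ((k:ℝ) + 1) ≠ 0 := by positivity
  field_simp

end Pool.Agent.Lib.MP_7e9031_nt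
end
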